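import Mathlib
import Pool.Agent.Helper150.Cub.Defs
import Pool.Agent.H729R2.FO.T_ARC
import Pool.Agent.H729R2.FO.T_C12
import Pool.Agent.H729R2.FO.T_CC
import Pool.Agent.H729R2.FO.T_CCM
import Pool.Agent.H729R2.FO.T_CEL
import Pool.Agent.H729R2.FO.T_CIN
import Pool.Agent.H729R2.FO.T_CNT
import Pool.Agent.H729R2.FO.T_COL
import Pool.Agent.H729R2.FO.T_DEC
import Pool.Agent.H729R2.FO.T_EQH
import Pool.Agent.H729R2.FO.T_GA1
import Pool.Agent.H729R2.FO.T_GA2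
import Pool.Agent.H729R2.FO.T_GAU
import Pool.Agent.H729R2.FO.T_GGC
import Pool.Agent.H729R2.FO.KN1b
import Pool.Agent.H729R2.FO.T_KN2
import Pool.Agent.H729R2.FO.T_KNA
import Pool.Agent.H729R2.FO.T_KND
import Pool.Agent.H729R2.FO.T_KSM
import Pool.Agent.H729R2.FO.T_KSU
import Pool.Agent.H729R2.FO.T_LEV
import Pool.Agent.H729R2.FO.T_NNF
import Pool.Agent.H729R2.FO.T_NUM
import Pool.Agent.H729R2.FO.T_OFF
import Pool.Agent.H729R2.FO.T_ONA
import Pool.Agent.H729R2.FO.T_ONB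
import Pool.Agent.H729R2.FO.T_ONE
import Pool.Agent.H729R2.FO.T_REP
import Pool.Agent.H729R2.FO.T_RES
import Pool.Agent.H729R2.FO.T_RZ
import Pool.Agent.H729R2.FO.T_SEP
import Pool.Agent.H729R2.FO.T_SKQ
import Pool.Agent.H729R2.FO.T_SMU
import Pool.Agent.H729R2.FO.T_SQ
import Pool.Agent.H729R2.FO.T_STP
import Pool.Agent.H729R2.FO.T_SYM
import Pool.Agent.H729R2.FO.T_TOP
import Pool.Agent.H729R2.FO.T_TRA
import Pool.Agent.H729R2.FO.T_UPA
import Pool.Agent.H729R2.FO.T_UPB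
import Pool.Agent.H729R2.FO.T_UPC
import Pool.Agent.H729R2.FO.T_UPD
import Pool.Agent.H729R2.FO.T_UPN
import Pool.Agent.H729R2.FO.T_UPP

set_option autoImplicit false

namespace Pool.Agent.Results.MP_21a4ea_an.FullOrder

open MeasureTheory Pool.Agent.Helper150.Cub Pool.Agent.H729R2.CB Pool.Agent.H729R2.FO

/-- The order of the optimal cubature error: for every real `r > 1` and every real `α`,
`κ_m(W^r_{1,α})` is between `c m^{-r} log m` and `C m^{-r} log m` for all large `m`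
(arbitrary nodes, arbitrary real or complex weights). -/
theorem result : ∀ (𝕜 : Type) [RCLike 𝕜] (r α : ℝ), 1 < r → ∃ c C : ℝ, 0 < c ∧ 0 < C ∧ ∃ m₀ : ℕ, ∀ m : ℕ, m₀ ≤ m →
    ENNReal.ofReal (c * ((m:ℝ) ^ (-r) * Real.log m)) ≤ kappa m (W 𝕜 r α) ∧
    kappa m (W 𝕜 r α) ≤ ENNReal.ofReal (C * ((m:ℝ) ^ (-r) * Real.log m)) := by
  have hE : S_CEL := t_CEL
  have hI : S_CIN := t_CIN hE
  have hS : S_SEP := t_SEP
  have hC : S_COL := t_COL
  have hA : S_ARC := t_ARC hE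
  have hG : S_GGC := t_GGC
  have hN : S_NNF := t_NNF
  have hO : S_OFF := t_OFF hS hC hG
  have hM : S_CCM := t_CCM hO hG hS hC
  have hCC : S_CC := t_CC hM hO t_REP hG hS hC hA hE
  have hT : S_TRA := t_TRA hE hI hN
  have hD : S_DEC := t_DEC hS hCC hT
  have h1 : S_GA1 := t_GA1 hE hI hS
  have h2 : S_GA2 := t_GA2 hE hI hS h1
  have hONE : S_ONE := t_ONE (t_GAU h1 h2) (t_ONA hD hE hI hS hA) (t_ONB hD hE hI hS hA)
  have hLEV : S_LEV := t_LEV (t_RZ (t_STP hE hS) hE hI) hN hE hI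
  have hTOP : S_TOP := t_TOP hONE hLEV t_EQH (t_CNT hE) t_NUM hN
  have hY : S_SYM := t_SYM t_SQ
  have hKNA : S_KNA := t_KNA hY t_SMU t_SKQ t_C12 t_KSM (t_KSU hY t_SKQ) (t_KND t_KN1b t_KN2)
  have hRES : S_RES := t_RES hTOP hKNA
  have hUP : S_UPP := t_UPP t_UPA t_UPB t_UPC (t_UPD t_UPN)
  intro 𝕜 _ r α hr
  obtain ⟨c, hc, m₀, h⟩ := hRES 𝕜 r α hr
  obtain ⟨C, hC0, m₁, h'⟩ := hUP 𝕜 r α hr
  exact ⟨c, C, hc, hC0, max m₀ m₁, fun m hm => ⟨h m (le_trans (le_max_left _ _) hm), h' m (le_trans (le_max_right _ _) hm)⟩⟩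

end Pool.Agent.Results.MP_21a4ea_an.FullOrder
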